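import Mathlib
import Pool.Agent.Lib.MP_968cc4_an.Assembly

set_option autoImplicit false

namespace Pool.Agent.Results.MP_968cc4_an.AtomicSpace

/-- There is an infinite-dimensional real quasi-Banach space, with modulus of concavity at most `2`,
in which every closed infinite-dimensional linear subspace is the whole space. -/
theorem result :
    ∃ (E : Type) (_ : AddCommGroup E) (_ : Module ℝ E) (Q : E → ℝ),
      (∀ x : E, Q x = 0 → x = 0) ∧
      (∀ x y : E, Q (x + y) ≤ 2 * (Q x + Q y)) ∧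
      (∀ (c : ℝ) (x : E), Q (c • x) = |c| * Q x) ∧
      (∀ u : ℕ → E, (∀ ε : ℝ, 0 < ε → ∃ N : ℕ, ∀ m ≥ N, ∀ n ≥ N, Q (u m - u n) < ε) →
        ∃ x : E, ∀ ε : ℝ, 0 < ε → ∃ N : ℕ, ∀ n ≥ N, Q (u n - x) < ε) ∧
      ¬ FiniteDimensional ℝ E ∧
      (∀ S : Submodule ℝ E, ¬ FiniteDimensional ℝ S →
        (∀ (u : ℕ → E) (x : E), (∀ n, u n ∈ S) →
          (∀ ε : ℝ, 0 < ε → ∃ N : ℕ, ∀ n ≥ N, Q (u n - x) < ε) → x ∈ S) → S = ⊤) :=
  Pool.Agent.Atomic.atomic_of_main Pool.Agent.Atomic.q (fun _ hx => Pool.Agent.Atomic.q_eq_zero hx)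
    Pool.Agent.Atomic.q_add_le Pool.Agent.Atomic.q_smul
    (fun z h1 h2 k η hη => Pool.Agent.Atomic.main_V z ⟨h1, h2⟩ k η hη)

end Pool.Agent.Results.MP_968cc4_an.AtomicSpace
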